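import Mathlib
import Pool.Agent.Y339.KG.Spec

/-!
# The Komlós problem for Gaussian images of arbitrary families of vectors

There is an absolute constant `K > 0` with the following properties.

(1) Let `v_1, …, v_n` be arbitrary vectors of the Euclidean unit ball of `ℝ^d`, let `r` be the
dimension of their span, and let `g` be an `m × d` matrix of independent standard normal variables
(`m`, `d`, `n` arbitrary). For `C > 0`, the probability that there are signs `ε_j` such that all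
coordinates of `g (∑ ε_j v_j)` are at most `C √m` is at least `1 - (K / C²) exp (-C² m / (K r))`.

(2) More generally, let `x ∈ [-1,1]^n`, let `B_1, …, B_m` be linear maps of `ℝ^d` with
`∑ ‖B_i‖² ≤ 1` and `‖B_i‖ ≤ b`, let `θ_1, …, θ_N` be vectors of norm at most one, and let
`g_1, …, g_m` be independent standard Gaussian vectors of `ℝ^d`. With probability at least
`1 - (K / C²) exp (-C² / (K r b²))` there are signs `ε_j` such that the vector
`y = ∑ (ε_j - x_j) v_j` satisfies `|⟨g_i, B_i y⟩| ≤ C` for all `i` and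
`|⟨θ_l, y⟩| ≤ K √(1 + log (1 + N))` for all `l`.

Proof. Second moment method for the distribution on the signs of a Gram-Schmidt walk (which is
subgaussian), and the inequality
`P (|X| ≤ C, |X'| ≤ C) ≤ P (|X| ≤ C) P (|X'| ≤ C) exp (c ρ² Var X / C²)` for centred jointly Gaussian
variables of correlation `ρ`.
-/

set_option autoImplicit false

namespace Pool.Agent.Results.MP_c81d26_co.GaussianImages

open MeasureTheory ProbabilityTheory
open scoped InnerProductSpace

theorem result : ∃ K : ℝ, 0 < K ∧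
    (∀ (m d n : ℕ) (v : Fin n → EuclideanSpace ℝ (Fin d)) (C : ℝ), (∀ j, ‖v j‖ ≤ 1) → 0 < C →
      1 - K / C ^ 2 * Real.exp (-(C ^ 2 * m /
          (K * Module.finrank ℝ (Submodule.span ℝ (Set.range v))))) ≤
        (Measure.pi fun _ : Fin m => Measure.pi fun _ : Fin d => gaussianReal 0 1).real
          {g | ∃ ε : Fin n → ℝ, (∀ j, ε j = 1 ∨ ε j = -1) ∧
            ∀ i, |∑ k, g i k * ∑ j, ε j * v j k| ≤ C * Real.sqrt m}) ∧
    ∀ (m d n N : ℕ) (v : Fin n → EuclideanSpace ℝ (Fin d)) (x : Fin n → ℝ)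
      (B : Fin m → EuclideanSpace ℝ (Fin d) →L[ℝ] EuclideanSpace ℝ (Fin d))
      (θ : Fin N → EuclideanSpace ℝ (Fin d)) (b C : ℝ), (∀ j, ‖v j‖ ≤ 1) → (∀ j, |x j| ≤ 1) →
      ∑ i, ‖B i‖ ^ 2 ≤ 1 → (∀ i, ‖B i‖ ≤ b) → (∀ l, ‖θ l‖ ≤ 1) → 0 < C →
      1 - K / C ^ 2 * Real.exp (-(C ^ 2 /
          (K * Module.finrank ℝ (Submodule.span ℝ (Set.range v)) * b ^ 2))) ≤
        (Measure.pi fun _ : Fin m => Measure.pi fun _ : Fin d => gaussianReal 0 1).real
          {g | ∃ ε : Fin n → ℝ, (∀ j, ε j = 1 ∨ ε j = -1) ∧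
            (∀ i, |∑ k, g i k * (B i (∑ j, (ε j - x j) • v j)) k| ≤ C) ∧
            ∀ l, |⟪θ l, ∑ j, (ε j - x j) • v j⟫_ℝ| ≤ K * Real.sqrt (1 + Real.log (1 + N))} :=
  ⟨35200, by norm_num, fun _ _ _ v _ hv hC => Pool.Agent.Y339.KG.img v hv hC,
    fun _ _ _ _ v x B θ _ _ hv hx hB hb hθ hC => Pool.Agent.Y339.KG.gen v hv x hx B hB hb θ hθ hC⟩

end Pool.Agent.Results.MP_c81d26_co.GaussianImages
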