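import Mathlib
import Pool.Agent.Y963.BF.Ran
import Pool.Agent.Y963.BF.Lin
import Pool.Agent.Y963.BF.Uni

/-!
# The Komlós problem for adversarial vectors with random supports

The indices `1, …, n` choose independent random sets `D_1, …, D_n` of coordinates in `[d]`, with
`P (R ⊆ D_j) ≤ (b / d) ^ |R|` for all `R` (for instance uniformly random sets of `b` coordinates).
Then an adversary chooses `δ ∈ (0, 1]` and vectors `v_1, …, v_n` in the Euclidean unit ball with
entries of absolute value at most `δ`, with `v_j` supported in `D_j`. With probability at least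
`1 - n b^8 / (2 d^7)` all these families have signings of value at most
`C (1 + δ (1 + log (1 / δ))^(3/2) √(1 + log (b max (1, n / d))))`.
-/

set_option autoImplicit false

namespace Pool.Agent.Results.MP_c81d26_co.RandomSupports

open Finset Pool.Agent.Y963.BF

/-- For every `j` a probability distribution `q j` on the sets of coordinates, with
`P (R ⊆ D) ≤ (b / d) ^ |R|` for all `R`. -/
def Spread {d n : ℕ} (q : Fin n → Finset (Fin d) → ℝ) (b : ℝ) : Prop :=
  (∀ j D, 0 ≤ q j D) ∧ (∀ j, ∑ D, q j D = 1) ∧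
    ∀ j (R : Finset (Fin d)), ∑ D ∈ univ.filter (fun D => R ⊆ D), q j D ≤ (b / d) ^ R.card

/-- The family `v` has a signing of value at most `K`. -/
def SignLE {d n : ℕ} (v : Fin n → Fin d → ℝ) (K : ℝ) : Prop :=
  ∃ ε : Fin n → ℝ, (∀ j, ε j = 1 ∨ ε j = -1) ∧ ∀ i, |∑ j, ε j * v j i| ≤ K

/-- For all `δ ∈ (0, 1]` every family of vectors `v j` in the Euclidean unit ball with entries of
absolute value at most `δ` and with `v j` supported in `D j` has a signing of value at most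
`C (1 + δ (1 + log (1 / δ))^(3/2) √(1 + log (b max (1, n / d))))`. -/
def Good {d n : ℕ} (C b : ℝ) (D : Fin n → Finset (Fin d)) : Prop :=
  ∀ (δ : ℝ) (v : Fin n → Fin d → ℝ), 0 < δ → δ ≤ 1 → (∀ j, ∑ i, v j i ^ 2 ≤ 1) →
    (∀ j i, |v j i| ≤ δ) → (∀ j i, i ∉ D j → v j i = 0) →
    SignLE v (C * (1 + δ * (1 + Real.log (1 / δ)) ^ (3 / 2 : ℝ) *
      Real.sqrt (1 + Real.log (b * max 1 ((n : ℝ) / d)))))

theorem good {d n : ℕ} (b : ℝ) (hb : 1 ≤ b) (D : Fin n → Finset (Fin d))
    (hD : ¬ Ran.Bad (Uni.K d n b) D) : Good 4230000 b D := by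
  classical
  intro δ v hδ0 hδ1 hv hδ hsupp
  set t : ℝ := 1 / δ ^ 2 with ht
  have ht1 : 1 ≤ t := by
    rw [ht, le_div_iff₀ (by positivity)]
    nlinarith
  obtain ⟨χ, h1, h2⟩ := Uni.sign D b hb hD (fun i j => v j i / δ) t ht1
    (by
      intro i j
      rw [abs_div, abs_of_pos hδ0, div_le_one hδ0]
      exact hδ j i)
    (by
      intro j
      have e : ∑ i, (v j i / δ) ^ 2 = (∑ i, v j i ^ 2) / δ ^ 2 := by
        rw [Finset.sum_div]
        exact sum_congr rfl fun i _ => div_pow _ _ _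
      rw [e, ht]
      have := hv j
      gcongr)
    (by
      intro i j hij
      rw [hsupp j i hij, zero_div])
  refine ⟨χ, h1, fun i => ?_⟩
  have h3 := h2 i
  have e1 : ∑ j, v j i / δ * χ j = (∑ j, χ j * v j i) / δ := by
    rw [Finset.sum_div]
    exact sum_congr rfl fun j _ => by ring
  rw [e1, abs_div, abs_of_pos hδ0, div_le_iff₀ hδ0] at h3
  refine h3.trans ?_
  have hst : Real.sqrt t = 1 / δ := by
    rw [ht, Real.sqrt_div (by norm_num), Real.sqrt_one, Real.sqrt_sq hδ0.le]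
  have hld : 0 ≤ Real.log (1 / δ) := Real.log_nonneg (by
    rw [le_div_iff₀ hδ0]; linarith)
  have hlt : Real.log t = 2 * Real.log (1 / δ) := by
    rw [ht, one_div, one_div, Real.log_inv, Real.log_inv, Real.log_pow]
    push_cast
    ring
  have hp : (1 + Real.log t) ^ (3 / 2 : ℝ) ≤ 3 * (1 + Real.log (1 / δ)) ^ (3 / 2 : ℝ) := by
    have h4 : 1 + Real.log t ≤ 2 * (1 + Real.log (1 / δ)) := by rw [hlt]; linarith
    calc (1 + Real.log t) ^ (3 / 2 : ℝ) ≤ (2 * (1 + Real.log (1 / δ))) ^ (3 / 2 : ℝ) := by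
          apply Real.rpow_le_rpow _ h4 (by norm_num)
          rw [hlt]; linarith
      _ = 2 ^ (3 / 2 : ℝ) * (1 + Real.log (1 / δ)) ^ (3 / 2 : ℝ) :=
          Real.mul_rpow (by norm_num) (by linarith)
      _ ≤ 3 * (1 + Real.log (1 / δ)) ^ (3 / 2 : ℝ) := by
          gcongr
          have h5 : (2 : ℝ) ^ (3 / 2 : ℝ) = 2 * Real.sqrt 2 := by
            rw [show (3 / 2 : ℝ) = 1 + 1 / 2 by norm_num, Real.rpow_add (by norm_num),
              Real.rpow_one, ← Real.sqrt_eq_rpow]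
          have h6 : Real.sqrt 2 ≤ 3 / 2 := by
            rw [Real.sqrt_le_left (by norm_num)]
            norm_num
          linarith
  rw [hst]
  set L : ℝ := Real.sqrt (1 + Real.log (b * max 1 ((n : ℝ) / d))) with hL
  have hL0 : 0 ≤ L := Real.sqrt_nonneg _
  set P : ℝ := (1 + Real.log (1 / δ)) ^ (3 / 2 : ℝ) with hP
  have hP0 : 0 ≤ P := by positivity
  have h7 : (1 + Real.log t) ^ (3 / 2 : ℝ) * L ≤ 3 * P * L := by gcongr
  calc (3134 * (1 / δ) + 1410000 * ((1 + Real.log t) ^ (3 / 2 : ℝ) * L)) * δ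
      ≤ (3134 * (1 / δ) + 1410000 * (3 * P * L)) * δ := by gcongr
    _ = 3134 + 4230000 * (δ * P * L) := by field_simp; ring
    _ ≤ 4230000 * (1 + δ * P * L) := by linarith

open Classical in
theorem result : ∃ C : ℝ, ∀ (d n : ℕ), 1 ≤ d → 1 ≤ n →
    (∀ (b : ℝ) (q : Fin n → Finset (Fin d) → ℝ), 1 ≤ b → Spread q b →
      ∑ D ∈ univ.filter (fun D => ¬ Good C b D), ∏ j, q j (D j) ≤ n * b ^ 8 / (2 * d ^ 7)) ∧
    ∀ b : ℕ, 1 ≤ b → b ≤ d →
      ((univ.filter (fun D : Fin n → Finset (Fin d) =>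
        (∀ j, (D j).card = b) ∧ ¬ Good C b D)).card : ℝ) ≤
        n * b ^ 8 / (2 * d ^ 7) * (d.choose b : ℝ) ^ n := by
  refine ⟨4230000, fun d n hm hn => ?_⟩
  have key : ∀ (b : ℝ) (q : Fin n → Finset (Fin d) → ℝ), 1 ≤ b → Spread q b →
      ∑ D ∈ univ.filter (fun D => ¬ Good 4230000 b D), ∏ j, q j (D j) ≤
        n * b ^ 8 / (2 * d ^ 7) := by
    intro b q hb hq
    have h1 := Ran.union_bound q hq.1 b hb hm hn hq.2.2 (Uni.K d n b) (Uni.K_le d n b hb)
    refine le_trans (Finset.sum_le_sum_of_subset_of_nonneg ?_ ?_) (h1.trans (le_of_eq ?_))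
    · intro D hD
      refine mem_filter.2 ⟨mem_univ _, ?_⟩
      by_contra h
      exact (mem_filter.1 hD).2 (good b hb D h)
    · intro D _ _
      exact prod_nonneg fun j _ => hq.1 j _
    · ring
  refine ⟨key, fun b hb hbm => ?_⟩
  refine Uni.count _ b hbm _ (key b (fun _ => Uni.unif d b) (by exact_mod_cast hb)
    ⟨fun _ D => Uni.unif_nonneg b D, fun _ => Uni.unif_sum b hbm,
      fun _ R => Uni.unif_spread b hm hbm R⟩)

end Pool.Agent.Results.MP_c81d26_co.RandomSupports
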