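import Pool.Agent.Y774.KC.Top
import Pool.Agent.Results.MP_c81d26_co.KomlosIterFree

/-!
# The number of signings of small value

Let `v_1, …, v_n` be arbitrary vectors in the Euclidean unit ball of `ℝ^d`.

(1) If every subfamily has a signing of value at most `B`, then for every `D > 0` at least
`2^n exp (-15200 n / D²)` signings of the family have value at most `B + D`.

(2) So at least `2^n exp (-15200 n / D²)` signings have value at most
`C (1 + log (1 + min n d))^{1/4} + D`, for an absolute constant `C` and all `D > 0`.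

(3) Komlós's conjecture holds if and only if there is a constant `C` such that for all families
in the unit ball and all `D ≥ C` at least `2^n exp (-C n / D²)` signings have value at most `D`.

(4) Up to the constant this is the best possible count: for every `D ≥ 1` there are arbitrarily
large families of unit vectors with at most `2^n exp (- n / (25 D²))` signings of value at most `D`.

Proof of (1): with probability at least `exp (-12 n / D²)` two random signings have values that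
differ by at most `2 D` (entropy of the rounded coordinates); their half difference is a signing of
a random half of the vectors; iterate on the other half with `4 D / 5`, and count.
-/

set_option autoImplicit false

namespace Pool.Agent.Results.MP_c81d26_co.SigningsCount

/-- The vectors `v_1, …, v_n` lie in the closed Euclidean unit ball of `ℝ^d`. -/
def InBall {n d : ℕ} (v : Fin n → Fin d → ℝ) : Prop := ∀ i, ∑ k, v i k ^ 2 ≤ 1

/-- The number of signings `ε ∈ {-1, 1}^n` of value at most `R`, that is, such that all coordinates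
of `∑ ε_i v_i` are at most `R` in absolute value. -/
noncomputable def count {n d : ℕ} (v : Fin n → Fin d → ℝ) (R : ℝ) : ℕ :=
  Nat.card {ε : Fin n → ℤˣ // ∀ k, |∑ i, ((ε i : ℤ) : ℝ) * v i k| ≤ R}

theorem units_real (u : ℤˣ) : ((u : ℤ) : ℝ) = 1 ∨ ((u : ℤ) : ℝ) = -1 := by
  rcases Int.units_eq_one_or u with h | h <;> simp [h]

/-- real signs to units -/
theorem exists_units {n : ℕ} (x : Fin n → ℝ) (hx : ∀ i, x i = 1 ∨ x i = -1) :
    ∃ ε : Fin n → ℤˣ, ∀ i, ((ε i : ℤ) : ℝ) = x i := by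
  classical
  refine ⟨fun i => if x i = 1 then 1 else -1, fun i => ?_⟩
  rcases hx i with h | h
  · simp [h]
  · have : x i ≠ 1 := by rw [h]; norm_num
    simp only [if_neg this]
    rw [h]
    norm_num

theorem transfer (n d : ℕ) (v : Fin n → Fin d → ℝ) (B D : ℝ) (hv : InBall v) (hD : 0 < D)
    (hB : ∀ I : Finset (Fin n), ∃ ε : Fin n → ℤˣ, ∀ k, |∑ i ∈ I, ((ε i : ℤ) : ℝ) * v i k| ≤ B) :
    2 ^ n * Real.exp (-(15200 * n / D ^ 2)) ≤ (count v (B + D) : ℝ) := by
  have h := Pool.Agent.Y774.KC.main_fun (fun k i => v i k) B D hD hv (fun Z => by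
    obtain ⟨ε, hε⟩ := hB Z
    exact ⟨fun i => ((ε i : ℤ) : ℝ), fun i => units_real _, hε⟩)
  rw [Fintype.card_fin] at h
  exact h

theorem part2 : ∃ C : ℝ, ∀ (n d : ℕ) (v : Fin n → Fin d → ℝ) (D : ℝ), InBall v → 0 < D →
    2 ^ n * Real.exp (-(15200 * n / D ^ 2)) ≤
      (count v (C * (1 + Real.log (1 + (min n d : ℕ))) ^ (1 / 4 : ℝ) + D) : ℝ) := by
  classical
  obtain ⟨C, hC⟩ := Pool.Agent.Results.MP_c81d26_co.KomlosIterFree.result
  refine ⟨|C|, fun n d v D hv hD => transfer n d v _ D hv hD fun I => ?_⟩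
  let w : Fin n → EuclideanSpace ℝ (Fin d) := fun i => if i ∈ I then WithLp.toLp 2 (v i) else 0
  have hw : ∀ i k, w i k = if i ∈ I then v i k else 0 := by
    intro i k
    by_cases h : i ∈ I <;> simp [w, h]
  have hle : ∀ i, ∑ k, (w i k) ^ 2 ≤ 1 := by
    intro i
    refine le_trans (Finset.sum_le_sum fun k _ => ?_) (hv i)
    rw [hw]
    split_ifs
    · exact le_rfl
    · simpa using sq_nonneg (v i k)
  have hnorm : ∀ i, ‖w i‖ ≤ 1 := by
    intro i
    rw [EuclideanSpace.norm_eq]
    simp only [Real.norm_eq_abs, sq_abs]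
    rw [Real.sqrt_le_one]
    exact hle i
  have hcoord : ∀ i k, |w i k| ≤ 1 := by
    intro i k
    rw [← sq_le_one_iff_abs_le_one]
    exact (Finset.single_le_sum (f := fun k => w i k ^ 2) (fun _ _ => sq_nonneg _)
      (Finset.mem_univ k)).trans (hle i)
  have h := (hC d n (max n 1) w 1 hnorm one_pos le_rfl hcoord (le_max_right _ _) (fun j => by
    refine (Finset.card_filter_le _ _).trans ?_
    rw [Finset.card_univ, Fintype.card_fin]
    exact le_max_left _ _) 0 (fun _ => 0) (by simp)).1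
  obtain ⟨x, hx, hx2⟩ := h
  obtain ⟨ε, hε⟩ := exists_units x hx
  refine ⟨ε, fun k => ?_⟩
  have h1 : ∑ i ∈ I, ((ε i : ℤ) : ℝ) * v i k = (∑ j, (x j - 0) • w j) k := by
    have h2 : (∑ j, (x j - 0) • w j) k = ∑ j, x j * w j k := by
      simp
    rw [h2, ← Finset.sum_filter_add_sum_filter_not Finset.univ (fun i => i ∈ I)]
    have h3 : ∑ i with i ∉ I, x i * w i k = 0 := by
      refine Finset.sum_eq_zero fun i hi => ?_
      rw [hw, if_neg (Finset.mem_filter.1 hi).2, mul_zero]
    rw [h3, add_zero]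
    have h4 : Finset.univ.filter (fun i => i ∈ I) = I := by simp
    rw [h4]
    refine Finset.sum_congr rfl fun i hi => ?_
    rw [hε, hw, if_pos hi]
  rw [h1]
  refine (hx2 k).trans ?_
  simp only [Nat.cast_zero, zero_mul, zero_add, Function.iterate_one, div_one, Real.log_one,
    add_zero, one_mul]
  have h5 : (0:ℝ) ≤ 1 + Real.log (1 + ((min d n : ℕ) : ℝ)) := by
    have : 0 ≤ Real.log (1 + ((min d n : ℕ) : ℝ)) := Real.log_nonneg (by
      have : (0:ℝ) ≤ ((min d n : ℕ) : ℝ) := by positivity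
      linarith)
    linarith
  have h6 := min_le_left ((1 + Real.log (1 + ((min d n : ℕ) : ℝ))) ^ (1 / 4 : ℝ))
    (1 + Real.sqrt (1 + Real.log (1 + ((min d n : ℕ) : ℝ))) * (1:ℝ) ^ (3 / 2 : ℝ))
  have h7 : 0 ≤ min ((1 + Real.log (1 + ((min d n : ℕ) : ℝ))) ^ (1 / 4 : ℝ))
    (1 + Real.sqrt (1 + Real.log (1 + ((min d n : ℕ) : ℝ))) * (1:ℝ) ^ (3 / 2 : ℝ)) :=
    le_min (by positivity) (by positivity)
  rw [min_comm n d]
  exact (mul_le_mul_of_nonneg_right (le_abs_self C) h7).trans
    (mul_le_mul_of_nonneg_left h6 (abs_nonneg C))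

theorem part3 :
    (∃ c : ℝ, 0 < c ∧ ∀ (n d : ℕ) (v : Fin n → Fin d → ℝ), InBall v →
      ∃ ε : Fin n → ℝ, (∀ i, ε i = 1 ∨ ε i = -1) ∧ ∀ k, |∑ i, ε i * v i k| ≤ c) ↔
    ∃ C : ℝ, 0 < C ∧ ∀ (n d : ℕ) (v : Fin n → Fin d → ℝ), InBall v → ∀ D : ℝ, C ≤ D →
      2 ^ n * Real.exp (-(C * n / D ^ 2)) ≤ (count v D : ℝ) := by
  classical
  constructor
  · rintro ⟨c, hc, h⟩
    refine ⟨max (2 * c) 60800, by positivity, fun n d v hv D hD => ?_⟩
    have hD1 : 2 * c ≤ D := (le_max_left _ _).trans hD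
    have hD0 : 0 < D := by linarith
    have h1 := transfer n d v c (D - c) hv (by linarith) (fun I => by
      obtain ⟨x, hx, hx2⟩ := h n d (fun i k => if i ∈ I then v i k else 0) (fun i => by
        refine le_trans (Finset.sum_le_sum fun k _ => ?_) (hv i)
        simp only
        split_ifs
        · exact le_rfl
        · simpa using sq_nonneg (v i k))
      obtain ⟨ε, hε⟩ := exists_units x hx
      refine ⟨ε, fun k => ?_⟩
      refine le_trans (le_of_eq ?_) (hx2 k)
      congr 1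
      rw [← Finset.sum_filter_add_sum_filter_not Finset.univ (fun i => i ∈ I)]
      have h3 : ∑ i with i ∉ I, x i * (if i ∈ I then v i k else 0) = 0 := by
        refine Finset.sum_eq_zero fun i hi => ?_
        rw [if_neg (Finset.mem_filter.1 hi).2, mul_zero]
      rw [h3, add_zero]
      have h4 : Finset.univ.filter (fun i => i ∈ I) = I := by simp
      rw [h4]
      refine Finset.sum_congr rfl fun i hi => ?_
      rw [hε, if_pos hi])
    rw [show c + (D - c) = D by ring] at h1
    refine le_trans ?_ h1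
    apply mul_le_mul_of_nonneg_left _ (by positivity)
    apply Real.exp_le_exp.2
    apply neg_le_neg
    have h5 : D / 2 ≤ D - c := by linarith
    have h6 : (D / 2) ^ 2 ≤ (D - c) ^ 2 := pow_le_pow_left₀ (by positivity) h5 2
    have hn : (0:ℝ) ≤ n := by positivity
    calc 15200 * (n:ℝ) / (D - c) ^ 2 ≤ 15200 * n / (D / 2) ^ 2 := by
          apply div_le_div_of_nonneg_left (by positivity) (by positivity) h6
      _ = 60800 * n / D ^ 2 := by
          field_simp
          ring
      _ ≤ max (2 * c) 60800 * n / D ^ 2 := by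
          apply div_le_div_of_nonneg_right _ (by positivity)
          exact mul_le_mul_of_nonneg_right (le_max_right _ _) hn
  · rintro ⟨C, hC, h⟩
    refine ⟨C, hC, fun n d v hv => ?_⟩
    have h1 := h n d v hv C le_rfl
    have h2 : (0:ℝ) < count v C := lt_of_lt_of_le (by positivity) h1
    have h3 : 0 < count v C := by exact_mod_cast h2
    unfold count at h3
    obtain ⟨⟨ε, hε⟩⟩ := (Nat.card_pos_iff.1 h3).1
    exact ⟨fun i => ((ε i : ℤ) : ℝ), fun i => units_real _, hε⟩

theorem exp_fifth : (13:ℝ) / 16 ≤ Real.exp (-(1 / 5)) := by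
  have h1 : Real.exp (1 / 5) ^ 5 < (16 / 13) ^ 5 := by
    rw [← Real.exp_nat_mul]
    have h2 : Real.exp ((5:ℕ) * (1 / 5)) = Real.exp 1 := by
      congr 1
      norm_num
    rw [h2]
    refine Real.exp_one_lt_d9.trans ?_
    norm_num
  have h3 : Real.exp (1 / 5) < 16 / 13 := lt_of_pow_lt_pow_left₀ 5 (by norm_num) h1
  rw [Real.exp_neg]
  have h4 := inv_anti₀ (Real.exp_pos _) h3.le
  refine le_trans (le_of_eq (by norm_num)) h4

theorem part4 (D : ℝ) (hD : 1 ≤ D) (N : ℕ) : ∃ n : ℕ, N ≤ n ∧ ∃ (d : ℕ)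
    (v : Fin n → Fin d → ℝ), InBall v ∧
      (count v D : ℝ) ≤ 2 ^ n * Real.exp (-(n / (25 * D ^ 2))) := by
  classical
  set k : ℕ := ⌈4 * D ^ 2⌉₊ with hk
  have hk1 : 4 * D ^ 2 ≤ k := Nat.le_ceil _
  have hk2 : (k:ℝ) ≤ 5 * D ^ 2 := by
    have := Nat.ceil_lt_add_one (by positivity : (0:ℝ) ≤ 4 * D ^ 2)
    have h1 : 1 ≤ D ^ 2 := one_le_pow₀ hD
    rw [← hk] at this
    linarith
  have hk0 : 1 ≤ k := by
    have h1 : 1 ≤ D ^ 2 := one_le_pow₀ hD
    have : (1:ℝ) ≤ k := by linarith
    exact_mod_cast this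
  refine ⟨N * k, Nat.le_mul_of_pos_right N hk0, N,
    fun i j => if (finProdFinEquiv.symm i).1 = j then 1 else 0, ?_, ?_⟩
  · intro i
    simp
  · have h1 : count (fun (i : Fin (N * k)) (j : Fin N) =>
        if (finProdFinEquiv.symm i).1 = j then (1:ℝ) else 0) D =
        Nat.card {ε : Fin k → ℤˣ // |∑ i, ((ε i : ℤ) : ℝ)| ≤ D} ^ N := by
      have h2 : Nat.card {ε : Fin k → ℤˣ // |∑ i, ((ε i : ℤ) : ℝ)| ≤ D} ^ N =
          Nat.card (Fin N → {ε : Fin k → ℤˣ // |∑ i, ((ε i : ℤ) : ℝ)| ≤ D}) := by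
        rw [Nat.card_fun, Nat.card_fin]
      rw [h2]
      unfold count
      have key : ∀ (ε : Fin (N * k) → ℤˣ) (j : Fin N),
          ∑ i, ((ε i : ℤ) : ℝ) * (if (finProdFinEquiv.symm i).1 = j then (1:ℝ) else 0) =
          ∑ l : Fin k, ((ε (finProdFinEquiv (j, l)) : ℤ) : ℝ) := by
        intro ε j
        rw [← Equiv.sum_comp finProdFinEquiv, Fintype.sum_prod_type]
        simp only [Equiv.symm_apply_apply]
        rw [Finset.sum_eq_single j]
        · simp
        · intro b _ hb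
          simp [hb]
        · simp
      refine Nat.card_congr
        { toFun := fun ε j => ⟨fun l => ε.1 (finProdFinEquiv (j, l)), ?_⟩
          invFun := fun f => ⟨fun i => (f (finProdFinEquiv.symm i).1).1
            (finProdFinEquiv.symm i).2, ?_⟩
          left_inv := ?_
          right_inv := ?_ }
      · have := ε.2 j
        rw [key] at this
        exact this
      · intro j
        rw [key]
        simp only [Equiv.symm_apply_apply]
        exact (f j).2
      · intro ε
        apply Subtype.ext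
        funext i
        exact congrArg ε.1 (finProdFinEquiv.apply_symm_apply i)
      · intro f
        funext j
        apply Subtype.ext
        funext l
        simp
    rw [h1]
    push_cast
    have h3 := Pool.Agent.Y774.KC.small_sum k D (by linarith) hk1
    have h4 := pow_le_pow_left₀ (by positivity) h3 N
    refine h4.trans ?_
    rw [mul_pow, mul_comm, ← pow_mul, mul_comm k N]
    apply mul_le_mul_of_nonneg_left _ (by positivity)
    have h5 : ((13:ℝ) / 16) ^ N ≤ Real.exp (-(1 / 5)) ^ N :=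
      pow_le_pow_left₀ (by norm_num) exp_fifth N
    refine h5.trans ?_
    rw [← Real.exp_nat_mul]
    apply Real.exp_le_exp.2
    have hN : (0:ℝ) ≤ N := by positivity
    have hDp : 0 < D ^ 2 := by positivity
    have h6 : (N:ℝ) * k / (25 * D ^ 2) ≤ N * (1 / 5) := by
      rw [div_le_iff₀ (by positivity)]
      nlinarith
    linarith

theorem result :
    (∀ (n d : ℕ) (v : Fin n → Fin d → ℝ) (B D : ℝ), InBall v → 0 < D →
      (∀ I : Finset (Fin n), ∃ ε : Fin n → ℤˣ,
        ∀ k, |∑ i ∈ I, ((ε i : ℤ) : ℝ) * v i k| ≤ B) →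
      2 ^ n * Real.exp (-(15200 * n / D ^ 2)) ≤ (count v (B + D) : ℝ)) ∧
    (∃ C : ℝ, ∀ (n d : ℕ) (v : Fin n → Fin d → ℝ) (D : ℝ), InBall v → 0 < D →
      2 ^ n * Real.exp (-(15200 * n / D ^ 2)) ≤
        (count v (C * (1 + Real.log (1 + (min n d : ℕ))) ^ (1 / 4 : ℝ) + D) : ℝ)) ∧
    ((∃ c : ℝ, 0 < c ∧ ∀ (n d : ℕ) (v : Fin n → Fin d → ℝ), InBall v →
        ∃ ε : Fin n → ℝ, (∀ i, ε i = 1 ∨ ε i = -1) ∧ ∀ k, |∑ i, ε i * v i k| ≤ c) ↔
      ∃ C : ℝ, 0 < C ∧ ∀ (n d : ℕ) (v : Fin n → Fin d → ℝ), InBall v → ∀ D : ℝ, C ≤ D →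
        2 ^ n * Real.exp (-(C * n / D ^ 2)) ≤ (count v D : ℝ)) ∧
    (∀ D : ℝ, 1 ≤ D → ∀ N : ℕ, ∃ n : ℕ, N ≤ n ∧ ∃ (d : ℕ) (v : Fin n → Fin d → ℝ), InBall v ∧
      (count v D : ℝ) ≤ 2 ^ n * Real.exp (-(n / (25 * D ^ 2)))) :=
  ⟨transfer, part2, part3, part4⟩

end Pool.Agent.Results.MP_c81d26_co.SigningsCount
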