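import Mathlib
import Pool.Agent.Y414.Kom.Sparse

/-!
# The Komlós problem for vectors with locally sparse supports

(1) Let `v_j = a_j + b_j` with `‖a_j‖₂ ≤ 1`, such that any `s` of the vectors `a_j` have together
at most `D s` nonzero entries in any `s` coordinates, and such that the sum of the absolute values
of the entries of any `s` of the vectors `b_j` in any `s` coordinates is at most `t s` (e.g. all
`‖b_j‖₁ ≤ t`). Then there is a signing of the `v_j` of value at most `√D + t`.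

(2) If `‖v_j‖₂ ≤ 1` and every nonzero entry is assigned to its vector or to its coordinate, so that
at most `p` entries are assigned to every vector and at most `q_k` entries to the coordinate `k`,
then for `α, β > 0`, `1/α + 1/β ≤ 1`, there is a signing for which the `k`-th coordinate of the
signed sum is at most `√(max (α p) (β q_k))`, for all `k`.

(3) The form with an arbitrary threshold `T_k` for every coordinate, from which (1) and (2) follow.
-/

set_option autoImplicit false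

namespace Pool.Agent.Results.MP_c81d26_co.SparseSupports

theorem result :
    (∀ (d n : ℕ) (a b : Fin n → Fin d → ℝ) (D t : ℝ), 0 < D → 0 ≤ t →
      (∀ j, ∑ k, a j k ^ 2 ≤ 1) →
      (∀ (S : Finset (Fin n)) (R : Finset (Fin d)), R.card = S.card →
        (((S ×ˢ R).filter (fun p => a p.1 p.2 ≠ 0)).card : ℝ) ≤ D * S.card) →
      (∀ (S : Finset (Fin n)) (R : Finset (Fin d)), R.card = S.card →
        ∑ j ∈ S, ∑ k ∈ R, |b j k| ≤ t * S.card) →
      ∃ ε : Fin n → ℝ, (∀ j, ε j = 1 ∨ ε j = -1) ∧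
        ∀ k, |∑ j, ε j * (a j k + b j k)| ≤ Real.sqrt D + t) ∧
    (∀ (d n : ℕ) (v : Fin n → Fin d → ℝ) (p : ℕ) (q : Fin d → ℕ) (α β : ℝ), 1 ≤ p →
      0 < α → 0 < β → 1 / α + 1 / β ≤ 1 → (∀ j, ∑ k, v j k ^ 2 ≤ 1) →
      ∀ toVector : Fin n → Fin d → Prop,
      (∀ j, {k | v j k ≠ 0 ∧ toVector j k}.ncard ≤ p) →
      (∀ k, {j | v j k ≠ 0 ∧ ¬ toVector j k}.ncard ≤ q k) →
      ∃ ε : Fin n → ℝ, (∀ j, ε j = 1 ∨ ε j = -1) ∧
        ∀ k, |∑ j, ε j * v j k| ≤ Real.sqrt (max (α * p) (β * q k))) ∧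
    ∀ (d n : ℕ) (a b : Fin n → Fin d → ℝ) (T : Fin d → ℝ) (t : ℝ), (∀ k, 0 < T k) → 0 ≤ t →
      (∀ j, ∑ k, a j k ^ 2 ≤ 1) →
      (∀ (S : Finset (Fin n)) (R : Finset (Fin d)), R.card = S.card →
        ∑ k ∈ R, ({j | j ∈ S ∧ a j k ≠ 0}.ncard : ℝ) / T k ^ 2 ≤ S.card) →
      (∀ (S : Finset (Fin n)) (R : Finset (Fin d)), R.card = S.card →
        ∑ k ∈ R, (∑ j ∈ S, |b j k|) / T k ≤ t * S.card) →
      ∃ ε : Fin n → ℝ, (∀ j, ε j = 1 ∨ ε j = -1) ∧
        ∀ k, |∑ j, ε j * (a j k + b j k)| ≤ (1 + t) * T k := by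
  refine ⟨?_, ?_, ?_⟩
  · intro d n a b D t hD ht ha hs hb
    exact Pool.Agent.Y414.Kom.uniform_komlos a b D t hD ha hs hb ht
  · intro d n v p q α β hp hα hβ hab hv f h1 h2
    obtain ⟨x, hx, h⟩ := Pool.Agent.Y414.Kom.assigned_komlos v (fun _ _ => 0) p q α β 0 hp hα hβ
      hab hv f h1 h2 le_rfl (by intro S R _; simp)
    refine ⟨x, hx, fun k => ?_⟩
    have h3 := h k
    simpa using h3
  · intro d n a b T t hT ht ha hs hb
    refine Pool.Agent.Y414.Kom.local_komlos a b T t hT ha hb ?_ ht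
    intro S R hRS
    refine le_trans (le_of_eq ?_) (hs S R hRS)
    refine Finset.sum_congr rfl fun k _ => ?_
    congr 2
    rw [← Set.ncard_coe_finset]
    congr 1
    ext j
    simp

end Pool.Agent.Results.MP_c81d26_co.SparseSupports
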